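import Pool.Agent.H5.Zim5

set_option autoImplicit false

namespace Pool.Agent.Results.MP_a7fafd_co.AllAvoidable

theorem result :
    ∀ p ∈ ([[0,1,0,2,0,3,1,2], [0,1,0,2,0,3,2,1], [0,1,0,2,1,3,0,3], [0,1,0,2,3,0,3,1],
        [0,1,0,2,0,3,0,1,3], [0,1,0,2,1,3,0,2,0]] : List (List ℕ)),
      ∃ k : ℕ, ∃ x : ℕ → Fin k, ∀ i m : ℕ,
        ¬ ∃ f : Fin p.length → List (Fin k),
            (∀ t, f t ≠ []) ∧
            (List.ofFn f).flatten = (List.range m).map (fun t => x (i + t)) ∧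
            ∀ a b : Fin p.length, p.get a = p.get b → (f a).Perm (f b) := by
  intro p hp
  apply Pool.Agent.H5.Zim5.avoid4
  · revert p; decide +kernel
  · revert p; decide +kernel

end Pool.Agent.Results.MP_a7fafd_co.AllAvoidable
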